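import Pool.Agent.TH16.Tak.Basic
import Mathlib.LinearAlgebra.Basis.VectorSpace
import Mathlib.NumberTheory.Real.Irrational
import Mathlib.Algebra.Order.BigOperators.Ring.Finset
import Mathlib.Tactic

set_option autoImplicit false

/-!
# The extremal weakened convex function for four points
-/

namespace Pool.Agent.TH16.Tak

open Set

/-- The inequality defining the class: the mean of `m` points `x 0 ≤ ... ≤ x (m-1)` of `[0,1]`. -/
def MeanIneq (m : ℕ) (f : ℝ → ℝ) : Prop :=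
  ∀ x : ℕ → ℝ, (∀ i < m, 0 ≤ x i ∧ x i ≤ 1) → (∀ i j, i ≤ j → j < m → x i ≤ x j) →
    f ((∑ i ∈ Finset.range m, x i) / m) ≤
      (∑ i ∈ Finset.range m, f (x i)) / m + (x (m - 1) - x 0)

/-- The class `𝓕_m`: `f 0, f 1 ≤ 0`, `f` is bounded above on `[0,1]`, and the mean inequality
holds. -/
def Fam (m : ℕ) : Set (ℝ → ℝ) :=
  {f | f 0 ≤ 0 ∧ f 1 ≤ 0 ∧ (∃ C : ℝ, ∀ x ∈ Icc (0 : ℝ) 1, f x ≤ C) ∧ MeanIneq m f}

/-- The value at `x` of the proposed extremal function:
`m^2 * ∑_{k ≥ 1} m^(-k) * min (‖m^(k-1) x‖, 1/m)`. -/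
noncomputable def G (m : ℕ) (x : ℝ) : ℝ :=
  (m : ℝ) ^ 2 * ∑' k : ℕ, (1 / (m : ℝ)) ^ (k + 1) * min (dn ((m : ℝ) ^ k * x)) (1 / m)

theorem blocks {m j k : ℕ} {f : ℝ → ℝ} (h : MeanIneq m f) (hm : m = k + j) (hj : 0 < j)
    (hk : 0 < k) {a b : ℝ} (ha : 0 ≤ a) (hab : a ≤ b) (hb : b ≤ 1) :
    f ((k * a + j * b) / m) ≤ (k * f a + j * f b) / m + (b - a) := by
  have h1 := h (fun i => if i < k then a else b) (fun i _ => by
    by_cases hi : i < k
    · simp only [hi, if_true]; exact ⟨ha, hab.trans hb⟩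
    · simp only [hi, if_false]; exact ⟨ha.trans hab, hb⟩) (fun i l hil _ => by
      by_cases hl : l < k
      · have hi : i < k := lt_of_le_of_lt hil hl
        simp only [hl, hi, if_true]; exact le_refl _
      · by_cases hi : i < k
        · simp only [hl, hi, if_true, if_false]; exact hab
        · simp only [hl, hi, if_false]; exact le_refl _)
  have e1 : ∑ i ∈ Finset.range m, (if i < k then a else b) = k * a + j * b := by
    rw [hm, Finset.sum_range_add]
    congr 1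
    · rw [Finset.sum_congr rfl (fun i hi => if_pos (Finset.mem_range.1 hi))]; simp
    · rw [Finset.sum_congr rfl (fun i _ => if_neg (by omega : ¬ k + i < k))]; simp
  have e2 : ∑ i ∈ Finset.range m, f (if i < k then a else b) = k * f a + j * f b := by
    rw [hm, Finset.sum_range_add]
    congr 1
    · rw [Finset.sum_congr rfl (fun i hi => by rw [if_pos (Finset.mem_range.1 hi)])]; simp
    · rw [Finset.sum_congr rfl (fun i _ => by rw [if_neg (by omega : ¬ k + i < k)])]; simp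
  have e3 : ¬ (m - 1 < k) := by omega
  simp only [e1, e2, e3, hk, if_true, if_false] at h1
  exact h1

theorem two_of_mem {f : ℝ → ℝ} (h : MeanIneq 2 f) {a b : ℝ} (ha : 0 ≤ a) (hab : a ≤ b)
    (hb : b ≤ 1) : f ((a + b) / 2) ≤ (f a + f b) / 2 + (b - a) := by
  have := blocks h (k := 1) (j := 1) rfl one_pos one_pos ha hab hb
  simpa using this

theorem meanIneq_two_iff (f : ℝ → ℝ) : MeanIneq 2 f ↔
    ∀ a b : ℝ, 0 ≤ a → a ≤ b → b ≤ 1 → f ((a + b) / 2) ≤ (f a + f b) / 2 + (b - a) := by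
  refine ⟨fun h a b ha hab hb => two_of_mem h ha hab hb, fun h x hx hmono => ?_⟩
  have := h (x 0) (x 1) (hx 0 (by norm_num)).1 (hmono 0 1 (by norm_num) (by norm_num))
    (hx 1 (by norm_num)).2
  simpa [Finset.sum_range_succ] using this

theorem meanIneq_four_iff (f : ℝ → ℝ) : MeanIneq 4 f ↔ MeanIneq 2 f := by
  constructor
  · intro h
    rw [meanIneq_two_iff]
    intro a b ha hab hb
    have := blocks h (k := 2) (j := 2) rfl two_pos two_pos ha hab hb
    push_cast at this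
    rw [show (2 * a + 2 * b) / 4 = (a + b) / 2 by ring,
      show (2 * f a + 2 * f b) / 4 = (f a + f b) / 2 by ring] at this
    exact this
  · intro h x hx hmono
    have h0 := hx 0 (by norm_num)
    have h3 := hx 3 (by norm_num)
    have h01 := hmono 0 1 (by norm_num) (by norm_num)
    have h12 := hmono 1 2 (by norm_num) (by norm_num)
    have h23 := hmono 2 3 (by norm_num) (by norm_num)
    have e1 := two_of_mem h (a := x 0) (b := x 2) h0.1 (by linarith) (by linarith)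
    have e2 := two_of_mem h (a := x 1) (b := x 3) (by linarith) (by linarith) (by linarith)
    have e3 := two_of_mem h (a := (x 0 + x 2) / 2) (b := (x 1 + x 3) / 2) (by linarith)
      (by linarith) (by linarith)
    have e4 : ((x 0 + x 2) / 2 + (x 1 + x 3) / 2) / 2 = (x 0 + x 1 + x 2 + x 3) / 4 := by ring
    rw [e4] at e3
    simp only [Finset.sum_range_succ, Finset.sum_range_zero, zero_add]
    push_cast
    linarith

theorem Fam_four : Fam 4 = Fam 2 := by
  ext f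
  simp only [Fam, Set.mem_ofPred_eq, meanIneq_four_iff]

theorem T_mem_two : T ∈ Fam 2 :=
  ⟨T_zero.le, T_one.le, ⟨2, fun x _ => T_le_two x⟩,
    (meanIneq_two_iff T).2 fun _ _ ha hab hb => T_mid ha hab hb⟩

theorem le_T {f : ℝ → ℝ} (hf : f ∈ Fam 2) {x : ℝ} (h0 : 0 ≤ x) (h1 : x ≤ 1) : f x ≤ T x := by
  obtain ⟨hf0, hf1, ⟨C, hC⟩, hmean⟩ := hf
  have key : ∀ n : ℕ, ∀ x : ℝ, 0 ≤ x → x ≤ 1 → f x ≤ T x + |C| * (1 / 2) ^ n := by
    intro n
    induction n with
    | zero =>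
      intro x hx hx1
      have := hC x ⟨hx, hx1⟩
      have h2 := T_nonneg x
      have h3 := le_abs_self C
      simp only [pow_zero]; linarith
    | succ n ih =>
      intro x hx hx1
      rcases le_or_gt x (1 / 2) with h | h
      · have e1 := two_of_mem hmean (a := 0) (b := 2 * x) le_rfl (by linarith) (by linarith)
        have e2 := ih (2 * x) (by linarith) (by linarith)
        rw [show (0 + 2 * x) / 2 = x by ring] at e1
        rw [T_left hx h, pow_succ]; linarith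
      · have e1 := two_of_mem hmean (a := 2 * x - 1) (b := 1) (by linarith) (by linarith) le_rfl
        have e2 := ih (2 * x - 1) (by linarith) (by linarith)
        rw [show (2 * x - 1 + 1) / 2 = x by ring] at e1
        rw [T_right h.le hx1, pow_succ]; linarith
  have hlim : Filter.Tendsto (fun n : ℕ => T x + |C| * (1 / 2 : ℝ) ^ n)
      Filter.atTop (nhds (T x + |C| * 0)) :=
    tendsto_const_nhds.add ((tendsto_pow_atTop_nhds_zero_of_lt_one (by norm_num)
      (by norm_num)).const_mul _)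
  have := ge_of_tendsto' hlim fun n => key n x h0 h1
  linarith

/-- `4 min (‖x‖, 1/4) = 2 ‖x‖ + ‖2x‖ `, multiplied by one. -/
theorem four_min (x : ℝ) : 4 * min (dn x) (1 / 4) = 2 * dn x + dn (2 * x) := by
  -- reduce to `[0, 1)`
  have hx : dn x = dn (Int.fract x) := by
    conv_lhs => rw [← Int.fract_add_floor x]
    exact dn_add_int _ _
  have h2x : dn (2 * x) = dn (2 * Int.fract x) := by
    conv_lhs => rw [← Int.fract_add_floor x]
    rw [show 2 * (Int.fract x + (⌊x⌋ : ℝ)) = 2 * Int.fract x + ((2 * ⌊x⌋ : ℤ) : ℝ) by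
      push_cast; ring]
    exact dn_add_int _ _
  rw [hx, h2x]
  set t := Int.fract x with ht
  have t0 : 0 ≤ t := Int.fract_nonneg x
  have t1 : t < 1 := Int.fract_lt_one x
  rcases le_or_gt t (1 / 2) with h | h
  · rw [dn_of_le_half t0 h]
    rcases le_or_gt t (1 / 4) with h4 | h4
    · rw [min_eq_left h4, dn_of_le_half (by linarith) (by linarith)]; ring
    · rw [min_eq_right h4.le, dn_of_ge_half (by linarith) (by linarith)]; ring
  · rw [dn_of_ge_half h.le t1.le]
    have e : dn (2 * t) = dn (2 * t - 1) := by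
      have := dn_add_int (2 * t) (-1)
      rw [← this]; push_cast; ring_nf
    rw [e]
    rcases le_or_gt t (3 / 4) with h4 | h4
    · rw [min_eq_right (by linarith), dn_of_le_half (by linarith) (by linarith)]; ring
    · rw [min_eq_left (by linarith), dn_of_ge_half (by linarith) (by linarith)]; ring

theorem T_four (x : ℝ) : T x = 4 * min (dn x) (1 / 4) + 1 / 4 * T (4 * x) := by
  rw [T_eq, T_eq (2 * x), four_min, show 2 * (2 * x) = 4 * x by ring]; ring

theorem G_term_summable (m : ℕ) (hm : 2 ≤ m) (x : ℝ) :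
    Summable fun k : ℕ => (1 / (m : ℝ)) ^ (k + 1) * min (dn ((m : ℝ) ^ k * x)) (1 / m) := by
  have hm' : (2 : ℝ) ≤ m := by exact_mod_cast hm
  have h0 : (0 : ℝ) < m := by linarith
  have hlt : 1 / (m : ℝ) < 1 := by rw [div_lt_one h0]; linarith
  refine Summable.of_nonneg_of_le (f := fun n : ℕ => (1 / (m : ℝ)) ^ n) (fun n => ?_)
    (fun n => ?_) (summable_geometric_of_lt_one (by positivity) hlt)
  · have h1 : 0 ≤ min (dn ((m : ℝ) ^ n * x)) (1 / m) := le_min (dn_nonneg _) (by positivity)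
    positivity
  · have h1 : 0 ≤ min (dn ((m : ℝ) ^ n * x)) (1 / m) := le_min (dn_nonneg _) (by positivity)
    have h2 : min (dn ((m : ℝ) ^ n * x)) (1 / m) ≤ 1 := (min_le_right _ _).trans hlt.le
    have h3 : 0 < (1 / (m : ℝ)) ^ n := by positivity
    rw [pow_succ]
    calc (1 / (m : ℝ)) ^ n * (1 / m) * min (dn ((m : ℝ) ^ n * x)) (1 / m)
        ≤ (1 / (m : ℝ)) ^ n * 1 * 1 := by gcongr
      _ = _ := by ring

theorem G_eq (m : ℕ) (hm : 2 ≤ m) (x : ℝ) :
    G m x = m * min (dn x) (1 / m) + 1 / m * G m (m * x) := by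
  have hm' : (2 : ℝ) ≤ m := by exact_mod_cast hm
  have h0 : (m : ℝ) ≠ 0 := by positivity
  unfold G
  rw [(G_term_summable m hm x).tsum_eq_zero_add]
  have e : ∀ k : ℕ, (1 / (m : ℝ)) ^ (k + 1 + 1) * min (dn ((m : ℝ) ^ (k + 1) * x)) (1 / m) =
      1 / m * ((1 / (m : ℝ)) ^ (k + 1) * min (dn ((m : ℝ) ^ k * (m * x))) (1 / m)) := by
    intro k
    rw [show (m : ℝ) ^ (k + 1) * x = (m : ℝ) ^ k * (m * x) by ring]; ring
  rw [tsum_congr e, tsum_mul_left]
  simp only [pow_zero, one_mul, zero_add, pow_one]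
  generalize ∑' k : ℕ, (1 / (m : ℝ)) ^ (k + 1) * min (dn ((m : ℝ) ^ k * (m * x))) (1 / m) = S
  generalize min (dn x) (1 / (m : ℝ)) = D
  field_simp

theorem G_nonneg (m : ℕ) (x : ℝ) : 0 ≤ G m x := by
  unfold G
  refine mul_nonneg (by positivity) (tsum_nonneg fun k => ?_)
  have h1 : 0 ≤ min (dn ((m : ℝ) ^ k * x)) (1 / m) := le_min (dn_nonneg _) (by positivity)
  positivity

theorem G_le (m : ℕ) (hm : 2 ≤ m) (x : ℝ) : G m x ≤ 2 := by
  have hm' : (2 : ℝ) ≤ m := by exact_mod_cast hm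
  have h0 : (0 : ℝ) < m := by linarith
  have hlt : 1 / (m : ℝ) < 1 := by rw [div_lt_one h0]; linarith
  have h1 : ∑' k : ℕ, (1 / (m : ℝ)) ^ (k + 1) * min (dn ((m : ℝ) ^ k * x)) (1 / m) ≤
      ∑' k : ℕ, (1 / (m : ℝ)) ^ 2 * (1 / (m : ℝ)) ^ k := by
    refine (G_term_summable m hm x).tsum_le_tsum (fun k => ?_)
      ((summable_geometric_of_lt_one (by positivity) hlt).mul_left _)
    calc (1 / (m : ℝ)) ^ (k + 1) * min (dn ((m : ℝ) ^ k * x)) (1 / m)
        ≤ (1 / (m : ℝ)) ^ (k + 1) * (1 / m) := by gcongr; exact min_le_right _ _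
      _ = _ := by ring
  rw [tsum_mul_left, tsum_geometric_of_lt_one (by positivity) hlt] at h1
  have h2 : (1 - 1 / (m : ℝ))⁻¹ ≤ 2 := by
    rw [inv_le_comm₀ (by linarith) (by norm_num)]
    have : 1 / (m : ℝ) ≤ 1 / 2 := one_div_le_one_div_of_le (by norm_num) hm'
    linarith
  unfold G
  calc (m : ℝ) ^ 2 * _ ≤ (m : ℝ) ^ 2 * ((1 / (m : ℝ)) ^ 2 * (1 - 1 / (m : ℝ))⁻¹) := by gcongr
    _ = (1 - 1 / (m : ℝ))⁻¹ := by field_simp
    _ ≤ 2 := h2

theorem G_four (x : ℝ) : G 4 x = T x := by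
  have key : ∀ n : ℕ, ∀ x : ℝ, |G 4 x - T x| ≤ 4 * (1 / 2) ^ n := by
    intro n
    induction n with
    | zero =>
      intro x
      have h1 := G_nonneg 4 x
      have h2 := G_le 4 (by norm_num) x
      have h3 := T_nonneg x
      have h4 := T_le_two x
      rw [abs_le]; constructor <;> simp only [pow_zero] <;> linarith
    | succ n ih =>
      intro x
      have h1 := G_eq 4 (by norm_num) x
      have h2 := T_four x
      have h3 := ih (4 * x)
      push_cast at h1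
      have e : G 4 x - T x = 1 / 4 * (G 4 (4 * x) - T (4 * x)) := by rw [h1, h2]; ring
      have h5 : (0 : ℝ) < (1 / 2) ^ n := by positivity
      rw [e, abs_mul, abs_of_pos (by norm_num : (0 : ℝ) < 1 / 4), pow_succ]
      linarith
  have hlim : Filter.Tendsto (fun n : ℕ => 4 * (1 / 2 : ℝ) ^ n)
      Filter.atTop (nhds (4 * 0)) :=
    (tendsto_pow_atTop_nhds_zero_of_lt_one (by norm_num) (by norm_num)).const_mul _
  have := ge_of_tendsto' hlim fun n => key n x
  have h0 : |G 4 x - T x| ≤ 0 := by linarith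
  have := abs_nonpos_iff.1 h0
  linarith

theorem isGreatest_four {x : ℝ} (h0 : 0 ≤ x) (h1 : x ≤ 1) :
    IsGreatest ((fun f : ℝ → ℝ => f x) '' Fam 4) (G 4 x) := by
  rw [Fam_four, G_four]
  refine ⟨⟨T, T_mem_two, rfl⟩, ?_⟩
  rintro _ ⟨f, hf, rfl⟩
  exact le_T hf h0 h1

theorem small_value {m : ℕ} (hm : 5 ≤ m) {f : ℝ → ℝ} (h0 : f 0 ≤ 0) (h1 : f 1 ≤ 0)
    (hf : MeanIneq m f) : f (4 / (m : ℝ) ^ 2) ≤ 4 / m := by
  obtain ⟨k, rfl⟩ : ∃ k, m = k + 2 := ⟨m - 2, by omega⟩
  have hk : 0 < k := by omega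
  have hm' : (5 : ℝ) ≤ ((k + 2 : ℕ) : ℝ) := by exact_mod_cast hm
  have hM : (0 : ℝ) < ((k + 2 : ℕ) : ℝ) := by linarith
  have hk' : (0 : ℝ) < (k : ℝ) := by exact_mod_cast hk
  have hy : 2 / ((k + 2 : ℕ) : ℝ) ≤ 1 := by rw [div_le_one hM]; linarith
  have hy0 : 0 ≤ 2 / ((k + 2 : ℕ) : ℝ) := by positivity
  have e1 := blocks hf (k := k) (j := 2) rfl two_pos hk (a := 0) (b := 2 / ((k + 2 : ℕ) : ℝ))
    le_rfl hy0 hy
  have e2 := blocks hf (k := k) (j := 2) rfl two_pos hk (a := 0) (b := 1) le_rfl zero_le_one le_rfl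
  rw [show ((k : ℝ) * 0 + (2 : ℕ) * (2 / ((k + 2 : ℕ) : ℝ))) / ((k + 2 : ℕ) : ℝ) =
    4 / ((k + 2 : ℕ) : ℝ) ^ 2 by push_cast; field_simp; ring] at e1
  rw [show ((k : ℝ) * 0 + (2 : ℕ) * 1) / ((k + 2 : ℕ) : ℝ) = 2 / ((k + 2 : ℕ) : ℝ) by
    push_cast; ring] at e2
  have e3 : ((k : ℝ) * f 0 + (2 : ℕ) * f 1) / ((k + 2 : ℕ) : ℝ) ≤ 0 := by
    apply div_nonpos_of_nonpos_of_nonneg _ hM.le
    push_cast
    nlinarith
  have e4 : f (2 / ((k + 2 : ℕ) : ℝ)) ≤ 1 := by linarith
  have e5 : ((k : ℝ) * f 0 + (2 : ℕ) * f (2 / ((k + 2 : ℕ) : ℝ))) / ((k + 2 : ℕ) : ℝ) ≤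
      2 / ((k + 2 : ℕ) : ℝ) := by
    apply div_le_div_of_nonneg_right _ hM.le
    push_cast at *
    nlinarith
  have e6 : 2 / ((k + 2 : ℕ) : ℝ) + (2 / ((k + 2 : ℕ) : ℝ) - 0) = 4 / ((k + 2 : ℕ) : ℝ) := by
    ring
  linarith

theorem G_value {m : ℕ} (hm : 5 ≤ m) : G m (4 / (m : ℝ) ^ 2) = 5 / m := by
  have hm' : (5 : ℝ) ≤ (m : ℝ) := by exact_mod_cast hm
  have hM : (0 : ℝ) < (m : ℝ) := by linarith
  have hG0 : G m 4 = 0 := by
    unfold G
    have : ∀ k : ℕ, (1 / (m : ℝ)) ^ (k + 1) * min (dn ((m : ℝ) ^ k * 4)) (1 / m) = 0 := by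
      intro k
      have hd : dn ((m : ℝ) ^ k * 4) = 0 := by
        have := dn_add_int 0 ((m : ℤ) ^ k * 4)
        rw [zero_add] at this
        push_cast at this
        rw [this]; simp [dn]
      rw [hd, min_eq_left (by positivity), mul_zero]
    rw [tsum_congr this, tsum_zero, mul_zero]
  have h1 := G_eq m (by omega) (4 / (m : ℝ) ^ 2)
  have h2 := G_eq m (by omega) (4 / (m : ℝ))
  rw [show (m : ℝ) * (4 / (m : ℝ) ^ 2) = 4 / m by field_simp] at h1
  rw [show (m : ℝ) * (4 / (m : ℝ)) = 4 by field_simp, hG0] at h2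
  have d1 : dn (4 / (m : ℝ) ^ 2) = 4 / (m : ℝ) ^ 2 := by
    apply dn_of_le_half (by positivity)
    rw [div_le_div_iff₀ (by positivity) (by norm_num)]; nlinarith
  have m1 : min (dn (4 / (m : ℝ) ^ 2)) (1 / m) = 4 / (m : ℝ) ^ 2 := by
    rw [d1]; apply min_eq_left
    rw [div_le_div_iff₀ (by positivity) (by positivity)]; nlinarith
  have m2 : min (dn (4 / (m : ℝ))) (1 / m) = 1 / m := by
    apply min_eq_right
    have h41 : 4 / (m : ℝ) ≤ 1 := by rw [div_le_one hM]; linarith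
    rcases le_or_gt (4 / (m : ℝ)) (1 / 2) with h | h
    · rw [dn_of_le_half (by positivity) h]
      exact div_le_div_of_nonneg_right (by norm_num) hM.le
    · rw [dn_of_ge_half h.le h41]
      have : 4 / (m : ℝ) + 1 / m ≤ 1 := by
        rw [← add_div, div_le_one hM]; linarith
      linarith
  rw [m1] at h1
  rw [m2] at h2
  rw [h1, h2]; field_simp; ring

/-- Without a boundedness assumption the supremum is infinite at every irrational point. -/
theorem unbounded {x : ℝ} (hx : Irrational x) (M : ℝ) :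
    ∃ f : ℝ → ℝ, f 0 ≤ 0 ∧ f 1 ≤ 0 ∧ (∀ m, 1 ≤ m → MeanIneq m f) ∧ M ≤ f x := by
  have hli : LinearIndependent ℚ ![(1 : ℝ), x] := by
    rw [LinearIndependent.pair_iff]
    intro s t hst
    by_cases ht : t = 0
    · subst ht
      refine ⟨?_, rfl⟩
      have : (s : ℝ) = 0 := by simpa [Rat.smul_def] using hst
      exact_mod_cast this
    · exfalso
      apply hx
      refine ⟨-s / t, ?_⟩
      have ht' : (t : ℝ) ≠ 0 := by exact_mod_cast ht
      rw [Rat.smul_def, Rat.smul_def] at hst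
      push_cast
      field_simp
      linarith
  obtain ⟨A, hA⟩ : ∃ A : ℝ →ₗ[ℚ] ℝ, A 1 = 0 ∧ A x = M := by
    obtain ⟨B, hB⟩ := LinearMap.exists_extend
      (hli.linearCombinationEquiv.symm.toLinearMap : _ →ₗ[ℚ] _)
    refine ⟨(Finsupp.lift ℝ ℚ (Fin 2) ![0, M]).comp B, ?_, ?_⟩
    · have h1 := LinearMap.congr_fun hB ⟨1, Submodule.subset_span ⟨0, rfl⟩⟩
      have h2 : hli.repr ⟨1, Submodule.subset_span ⟨0, rfl⟩⟩ = Finsupp.single 0 1 :=
        hli.repr_eq_single 0 _ rfl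
      simp only [LinearMap.comp_apply, Submodule.subtype_apply] at h1 ⊢
      rw [h1]
      erw [h2]
      simp
    · have h1 := LinearMap.congr_fun hB ⟨x, Submodule.subset_span ⟨1, rfl⟩⟩
      have h2 : hli.repr ⟨x, Submodule.subset_span ⟨1, rfl⟩⟩ = Finsupp.single 1 1 :=
        hli.repr_eq_single 1 _ rfl
      simp only [LinearMap.comp_apply, Submodule.subtype_apply] at h1 ⊢
      rw [h1]
      erw [h2]
      simp
  refine ⟨A, ?_, hA.1.le, ?_, hA.2.ge⟩
  · rw [map_zero]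
  · intro m hm y _ hmono
    have hm' : (m : ℚ) ≠ 0 := by positivity
    have e : A ((∑ i ∈ Finset.range m, y i) / m) = (∑ i ∈ Finset.range m, A (y i)) / m := by
      have h1 : (∑ i ∈ Finset.range m, y i) / (m : ℝ) =
          (1 / (m : ℚ)) • (∑ i ∈ Finset.range m, y i) := by
        rw [Rat.smul_def]; push_cast; ring
      rw [h1, map_smul, map_sum, Rat.smul_def]; push_cast; ring
    rw [e]
    have := hmono 0 (m - 1) (Nat.zero_le _) (by omega)
    linarith

end Pool.Agent.TH16.Tak
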