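import Mathlib.Analysis.Normed.Group.AddCircle
import Mathlib.Analysis.SpecificLimits.Basic
import Mathlib.Topology.Algebra.InfiniteSum.Real
import Mathlib.Tactic

set_option autoImplicit false

/-!
# The function `T(x) = ∑ 2^(1-n) ‖2^n x‖` and the classes of weakened convex functions
-/

namespace Pool.Agent.TH16.Tak

/-- Distance of a real number to the nearest integer. -/
noncomputable def dn (t : ℝ) : ℝ := |t - round t|

theorem dn_eq_norm (t : ℝ) : dn t = ‖((t : ℝ) : UnitAddCircle)‖ := by
  rw [UnitAddCircle.norm_eq, dn]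

theorem dn_nonneg (t : ℝ) : 0 ≤ dn t := abs_nonneg _

theorem dn_le_half (t : ℝ) : dn t ≤ 1 / 2 := abs_sub_round t

theorem dn_neg (t : ℝ) : dn (-t) = dn t := by
  rw [dn_eq_norm, dn_eq_norm, AddCircle.coe_neg, norm_neg]

theorem dn_add_int (t : ℝ) (n : ℤ) : dn (t + n) = dn t := by
  unfold dn
  rw [round_add_intCast]; push_cast; congr 1; ring

theorem dn_add_le (s t : ℝ) : dn (s + t) ≤ dn s + dn t := by
  rw [dn_eq_norm, dn_eq_norm, dn_eq_norm, AddCircle.coe_add]
  exact norm_add_le _ _

theorem dn_le_self {t : ℝ} (h0 : 0 ≤ t) : dn t ≤ t := by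
  have h := round_le t 0
  rw [Int.cast_zero, sub_zero] at h
  have h2 : |t| = t := abs_of_nonneg h0
  exact h.trans h2.le

theorem dn_of_le_half {t : ℝ} (h0 : 0 ≤ t) (h1 : t ≤ 1 / 2) : dn t = t := by
  refine le_antisymm (dn_le_self h0) ?_
  -- the nearest integer is at distance at least t
  unfold dn
  rcases le_or_gt (round t) 0 with hr | hr
  · have : (round t : ℝ) ≤ 0 := by exact_mod_cast hr
    rw [abs_of_nonneg (by linarith)]; linarith
  · have : (1 : ℝ) ≤ (round t : ℝ) := by exact_mod_cast hr
    rw [abs_of_nonpos (by linarith)]; linarith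

theorem dn_of_ge_half {t : ℝ} (h0 : 1 / 2 ≤ t) (h1 : t ≤ 1) : dn t = 1 - t := by
  have h := dn_of_le_half (t := 1 - t) (by linarith) (by linarith)
  have h2 : dn (1 - t) = dn t := by
    have : (1 : ℝ) - t = -t + ((1 : ℤ) : ℝ) := by push_cast; ring
    rw [this, dn_add_int, dn_neg]
  rw [← h2, h]

/-- The function `T(x) = ∑_{n ≥ 0} 2^(1-n) ‖2^n x‖` (twice the Takagi function). -/
noncomputable def T (x : ℝ) : ℝ := ∑' n : ℕ, 2 * (1 / 2 : ℝ) ^ n * dn (2 ^ n * x)

theorem T_summable (x : ℝ) : Summable fun n : ℕ => 2 * (1 / 2 : ℝ) ^ n * dn (2 ^ n * x) := by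
  refine Summable.of_nonneg_of_le (f := fun n : ℕ => (1 / 2 : ℝ) ^ n) (fun n => ?_) (fun n => ?_)
    (summable_geometric_of_lt_one (by norm_num) (by norm_num))
  · have := dn_nonneg (2 ^ n * x); positivity
  · have h1 := dn_le_half (2 ^ n * x)
    have h2 : (0 : ℝ) < (1 / 2 : ℝ) ^ n := by positivity
    nlinarith

theorem T_nonneg (x : ℝ) : 0 ≤ T x :=
  tsum_nonneg fun n => by have := dn_nonneg (2 ^ n * x); positivity

theorem T_le_two (x : ℝ) : T x ≤ 2 := by
  have h : T x ≤ ∑' n : ℕ, (1 / 2 : ℝ) ^ n :=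
    (T_summable x).tsum_le_tsum (fun n => by
      have h1 := dn_le_half (2 ^ n * x)
      have h2 : (0 : ℝ) < (1 / 2 : ℝ) ^ n := by positivity
      nlinarith) (summable_geometric_of_lt_one (by norm_num) (by norm_num))
  rwa [tsum_geometric_of_lt_one (by norm_num) (by norm_num), show (1 - 1 / 2 : ℝ)⁻¹ = 2 by norm_num]
    at h

theorem T_eq (x : ℝ) : T x = 2 * dn x + 1 / 2 * T (2 * x) := by
  unfold T
  rw [(T_summable x).tsum_eq_zero_add, ← tsum_mul_left]
  congr 1
  · simp
  · refine tsum_congr fun n => ?_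
    rw [show (2 : ℝ) ^ (n + 1) * x = 2 ^ n * (2 * x) by ring]; ring

theorem T_neg (x : ℝ) : T (-x) = T x := by
  unfold T
  refine tsum_congr fun n => ?_
  rw [show (2 : ℝ) ^ n * -x = -(2 ^ n * x) by ring, dn_neg]

theorem T_add_int (x : ℝ) (m : ℤ) : T (x + m) = T x := by
  unfold T
  refine tsum_congr fun n => ?_
  rw [show (2 : ℝ) ^ n * (x + m) = 2 ^ n * x + ((2 ^ n * m : ℤ) : ℝ) by push_cast; ring, dn_add_int]

theorem T_add_le (x y : ℝ) : T (x + y) ≤ T x + T y := by
  unfold T
  rw [← (T_summable x).tsum_add (T_summable y)]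
  refine (T_summable (x + y)).tsum_le_tsum (fun n => ?_) ((T_summable x).add (T_summable y))
  have h := dn_add_le (2 ^ n * x) (2 ^ n * y)
  rw [show (2 : ℝ) ^ n * (x + y) = 2 ^ n * x + 2 ^ n * y by ring]
  have h2 : (0 : ℝ) < (1 / 2 : ℝ) ^ n := by positivity
  nlinarith

theorem T_zero : T 0 = 0 := by
  have h0 : dn 0 = 0 := by simp [dn]
  simp [T, h0]

theorem T_one : T 1 = 0 := by
  have := T_add_int 0 1
  simpa [T_zero] using this

theorem T_left {x : ℝ} (h0 : 0 ≤ x) (h1 : x ≤ 1 / 2) : T x = 2 * x + 1 / 2 * T (2 * x) := by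
  rw [T_eq, dn_of_le_half h0 h1]

theorem T_right {x : ℝ} (h0 : 1 / 2 ≤ x) (h1 : x ≤ 1) :
    T x = 2 * (1 - x) + 1 / 2 * T (2 * x - 1) := by
  rw [T_eq, dn_of_ge_half h0 h1]
  have := T_add_int (2 * x) (-1)
  rw [← this]; push_cast; ring_nf

/-- The defect of the inequality for two points is at most `2 ^ (1 - n)` for every `n`. -/
theorem defect_le (n : ℕ) : ∀ x y : ℝ, 0 ≤ x → x ≤ y → y ≤ 1 →
    T ((x + y) / 2) ≤ (T x + T y) / 2 + (y - x) + 2 * (1 / 2) ^ n := by
  induction n with
  | zero =>
    intro x y hx hxy hy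
    have h1 := T_le_two ((x + y) / 2)
    have h2 := T_nonneg x
    have h3 := T_nonneg y
    simp only [pow_zero]; linarith
  | succ n ih =>
    intro x y hx hxy hy
    have hpos : (0 : ℝ) < (1 / 2) ^ (n + 1) := by positivity
    rcases le_or_gt y (1 / 2) with h | h
    · have e1 := T_left (x := (x + y) / 2) (by linarith) (by linarith)
      have e2 := T_left (x := x) hx (by linarith)
      have e3 := T_left (x := y) (by linarith) h
      have e4 := ih (2 * x) (2 * y) (by linarith) (by linarith) (by linarith)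
      rw [show 2 * ((x + y) / 2) = (2 * x + 2 * y) / 2 by ring] at e1
      rw [e1, e2, e3, pow_succ]; linarith
    · rcases le_or_gt (1 / 2) x with h' | h'
      · have e1 := T_right (x := (x + y) / 2) (by linarith) (by linarith)
        have e2 := T_right (x := x) h' (by linarith)
        have e3 := T_right (x := y) (by linarith) hy
        have e4 := ih (2 * x - 1) (2 * y - 1) (by linarith) (by linarith) (by linarith)
        rw [show 2 * ((x + y) / 2) - 1 = (2 * x - 1 + (2 * y - 1)) / 2 by ring] at e1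
        rw [e1, e2, e3, pow_succ]; linarith
      · -- the two points lie on different sides of `1/2`
        suffices H : T ((x + y) / 2) ≤ (T x + T y) / 2 + (y - x) by linarith
        have ex := T_left (x := x) hx h'.le
        have ey := T_right (x := y) h.le hy
        have hyy : T (2 * y - 1) = T (2 * y) := by
          have := T_add_int (2 * y) (-1)
          rw [← this]; push_cast; ring_nf
        have hsub := T_add_le (2 * x) (2 * y)
        rcases le_or_gt (x + y) 1 with hs | hs
        · have e1 := T_left (x := (x + y) / 2) (by linarith) (by linarith)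
          have e3 : T (1 - (x + y)) ≤ 2 * (1 - (x + y)) + 1 / 2 * T (2 * x + 2 * y) := by
            rw [T_eq]
            have hd : dn (1 - (x + y)) ≤ 1 - (x + y) := dn_le_self (by linarith)
            have h3 : T (2 * (1 - (x + y))) = T (2 * x + 2 * y) := by
              have h4 := T_add_int (-(2 * x + 2 * y)) 2
              rw [T_neg] at h4
              rw [← h4]; push_cast; ring_nf
            rw [h3]; linarith
          have e4 : T (2 * ((x + y) / 2)) = T (1 - (x + y)) := by
            have h4 := T_add_int (-(x + y)) 1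
            rw [T_neg] at h4
            rw [show 2 * ((x + y) / 2) = x + y by ring, ← h4]; push_cast; ring_nf
          rw [e1, ex, ey, e4, hyy]; linarith
        · have e1 := T_right (x := (x + y) / 2) (by linarith) (by linarith)
          have e3 : T (x + y - 1) ≤ 2 * (x + y - 1) + 1 / 2 * T (2 * x + 2 * y) := by
            rw [T_eq]
            have hd : dn (x + y - 1) ≤ x + y - 1 := dn_le_self (by linarith)
            have h3 : T (2 * (x + y - 1)) = T (2 * x + 2 * y) := by
              have h4 := T_add_int (2 * x + 2 * y) (-2)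
              rw [← h4]; push_cast; ring_nf
            rw [h3]; linarith
          rw [show 2 * ((x + y) / 2) - 1 = x + y - 1 by ring] at e1
          rw [e1, ex, ey, hyy]; linarith

/-- `T` satisfies the two-point inequality on `[0,1]`. -/
theorem T_mid {x y : ℝ} (hx : 0 ≤ x) (hxy : x ≤ y) (hy : y ≤ 1) :
    T ((x + y) / 2) ≤ (T x + T y) / 2 + (y - x) := by
  have hlim : Filter.Tendsto (fun n : ℕ => (T x + T y) / 2 + (y - x) + 2 * (1 / 2 : ℝ) ^ n)
      Filter.atTop (nhds ((T x + T y) / 2 + (y - x) + 2 * 0)) :=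
    tendsto_const_nhds.add ((tendsto_pow_atTop_nhds_zero_of_lt_one (by norm_num)
      (by norm_num)).const_mul 2)
  have := ge_of_tendsto' hlim fun n => defect_le n x y hx hxy hy
  linarith

end Pool.Agent.TH16.Tak
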